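import Pool.Agent.H5.EG.Spec2

/-!
# MP_98cfca_co: the lemma `S_tiny` of the project EG
-/

set_option autoImplicit false

namespace Pool.Agent.H59.EG

open PowerSeries Pool.Agent.H5.EG Filter Topology

/-- `n^l ≤ l! v^(-l) exp (n v)` -/
theorem pow_le_fact_exp (n l : ℕ) {v : ℝ} (hv : 0 < v) :
    (n : ℝ) ^ l ≤ l.factorial * (1 / v) ^ l * Real.exp (n * v) := by
  have h0 : (0 : ℝ) ≤ n * v := by positivity
  have h1 := Real.pow_div_factorial_le_exp (n * v) h0 l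
  have hf : (0 : ℝ) < l.factorial := by exact_mod_cast l.factorial_pos
  rw [div_le_iff₀ hf, mul_pow] at h1
  have h2 : (n : ℝ) ^ l = (n : ℝ) ^ l * v ^ l * (1 / v) ^ l := by
    rw [mul_assoc, ← mul_pow, mul_one_div_cancel hv.ne', one_pow, mul_one]
  rw [h2]
  have h3 : (0 : ℝ) ≤ (1 / v) ^ l := by positivity
  calc (n : ℝ) ^ l * v ^ l * (1 / v) ^ l ≤ (Real.exp (n * v) * l.factorial) * (1 / v) ^ l :=
        mul_le_mul_of_nonneg_right h1 h3
    _ = _ := by ring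

theorem geom_bound {t : ℝ} (ht : 0 < t) : (1 - Real.exp (-t))⁻¹ ≤ 1 + 1 / t := by
  have h1 : t + 1 ≤ Real.exp t := Real.add_one_le_exp t
  have h2 : Real.exp (-t) ≤ 1 / (t + 1) := by
    rw [Real.exp_neg, ← one_div]
    exact one_div_le_one_div_of_le (by linarith) h1
  have h3 : t / (t + 1) ≤ 1 - Real.exp (-t) := by
    have : t / (t + 1) = 1 - 1 / (t + 1) := by field_simp; ring
    rw [this]; linarith
  have h4 : 0 < t / (t + 1) := by positivity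
  calc (1 - Real.exp (-t))⁻¹ ≤ (t / (t + 1))⁻¹ := inv_anti₀ h4 h3
    _ = 1 + 1 / t := by field_simp

/-- The comparison of the constants. -/
theorem const_bound (κ B : ℕ) : ∃ X₀ : ℕ, 2 ≤ X₀ ∧ ∀ X ≥ X₀, ∀ l ≤ B,
    (l.factorial : ℝ) * (8 * (X : ℝ) ^ 2) ^ l * Real.exp (κ * (X : ℝ) ^ 3 - (X : ℝ) ^ 4 / 4) *
      (1 + 8 * (X : ℝ) ^ 2) ≤ 1 := by
  have h1 := (Real.tendsto_pow_mul_exp_neg_atTop_nhds_zero (2 * B + 2)).comp
    (tendsto_natCast_atTop_atTop (R := ℝ))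
  have h2 := h1.const_mul ((B.factorial : ℝ) * 8 ^ B * 9)
  rw [mul_zero] at h2
  have h3 := h2.eventually (gt_mem_nhds (zero_lt_one' ℝ))
  obtain ⟨X₁, hX₁⟩ := eventually_atTop.1 h3
  refine ⟨max X₁ (4 * (κ + 1) + 2), le_trans (by omega) (le_max_right _ _), ?_⟩
  intro X hX l hl
  have hXa : X₁ ≤ X := le_trans (le_max_left _ _) hX
  have hXb : 4 * (κ + 1) + 2 ≤ X := le_trans (le_max_right _ _) hX
  have hX1 : (1 : ℝ) ≤ X := by
    have : 1 ≤ X := by omega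
    exact_mod_cast this
  have hX4 : 4 * ((κ : ℝ) + 1) ≤ X := by
    have : 4 * (κ + 1) ≤ X := by omega
    exact_mod_cast this
  have hmain := hX₁ X hXa
  simp only [Function.comp] at hmain
  have e1 : (κ : ℝ) * (X : ℝ) ^ 3 - (X : ℝ) ^ 4 / 4 ≤ -(X : ℝ) := by
    have a1 : (X : ℝ) ≤ (X : ℝ) ^ 3 := by
      calc (X : ℝ) = (X : ℝ) ^ 1 := (pow_one _).symm
        _ ≤ (X : ℝ) ^ 3 := pow_le_pow_right₀ hX1 (by norm_num)
    have a2 : 0 ≤ (X : ℝ) ^ 3 := by positivity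
    have a3 : 4 * ((κ : ℝ) + 1) * (X : ℝ) ^ 3 ≤ X * (X : ℝ) ^ 3 :=
      mul_le_mul_of_nonneg_right hX4 a2
    have a4 : (X : ℝ) * (X : ℝ) ^ 3 = (X : ℝ) ^ 4 := by ring
    rw [a4] at a3
    linarith
  have e2 : (l.factorial : ℝ) ≤ B.factorial := by
    exact_mod_cast Nat.factorial_le hl
  have e3 : (8 * (X : ℝ) ^ 2) ^ l ≤ (8 * (X : ℝ) ^ 2) ^ B := by
    refine pow_le_pow_right₀ ?_ hl
    have : (1 : ℝ) ≤ (X : ℝ) ^ 2 := one_le_pow₀ hX1
    linarith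
  have e4 : 1 + 8 * (X : ℝ) ^ 2 ≤ 9 * (X : ℝ) ^ 2 := by
    have : (1 : ℝ) ≤ (X : ℝ) ^ 2 := one_le_pow₀ hX1
    linarith
  have e5 : Real.exp (κ * (X : ℝ) ^ 3 - (X : ℝ) ^ 4 / 4) ≤ Real.exp (-(X : ℝ)) :=
    Real.exp_le_exp.2 e1
  calc (l.factorial : ℝ) * (8 * (X : ℝ) ^ 2) ^ l * Real.exp (κ * (X : ℝ) ^ 3 - (X : ℝ) ^ 4 / 4) *
      (1 + 8 * (X : ℝ) ^ 2)
      ≤ (B.factorial : ℝ) * (8 * (X : ℝ) ^ 2) ^ B * Real.exp (-(X : ℝ)) * (9 * (X : ℝ) ^ 2) := by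
        gcongr
    _ = (B.factorial : ℝ) * 8 ^ B * 9 * ((X : ℝ) ^ (2 * B + 2) * Real.exp (-(X : ℝ))) := by
        rw [mul_pow, ← pow_mul, pow_add]; ring
    _ ≤ 1 := hmain.le

theorem tiny : S_tiny := by
  intro κ B
  obtain ⟨X₀, hX₀, hc⟩ := const_bound κ B
  refine ⟨X₀, ?_⟩
  intro X hX h hlow hcoef l hl x hx
  have hX2 : (2 : ℝ) ≤ X := by
    have : 2 ≤ X := le_trans hX₀ hX
    exact_mod_cast this
  have hXsq : (4 : ℝ) ≤ (X : ℝ) ^ 2 := by nlinarith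
  set u : ℝ := 1 / (2 * (X : ℝ) ^ 2) with hu
  have hu0 : 0 < u := by positivity
  have hu1 : u ≤ 1 / 8 := by
    rw [hu]
    exact one_div_le_one_div_of_le (by norm_num) (by linarith)
  have h2u : 1 / (X : ℝ) ^ 2 = 2 * u := by
    rw [hu]; field_simp
  rw [h2u] at hx
  set K : ℝ := (l.factorial : ℝ) * (8 * (X : ℝ) ^ 2) ^ l *
    Real.exp (κ * (X : ℝ) ^ 3 - (X : ℝ) ^ 4 / 4) with hK
  have hK0 : 0 ≤ K := by positivity
  set q : ℝ := Real.exp (-(u / 4)) with hq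
  have hq0 : 0 ≤ q := (Real.exp_pos _).le
  have hq1 : q < 1 := by
    rw [hq]; exact Real.exp_lt_one_iff.2 (by linarith)
  have hg : HasSum (fun n : ℕ => K * q ^ n) (K * (1 - q)⁻¹) :=
    (hasSum_geometric_of_lt_one hq0 hq1).mul_left K
  have hterm : ∀ n : ℕ, ‖PowerSeries.coeff n (D^[l] h) * x ^ n‖ ≤ K * q ^ n := by
    intro n
    rcases lt_or_ge n (X ^ 6) with hn | hn
    · rw [coeff_D_iter, hlow n hn]
      simp only [mul_zero, zero_mul, norm_zero]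
      positivity
    · rw [coeff_D_iter, norm_mul, norm_mul, norm_pow, norm_pow, Complex.norm_natCast]
      have hnR : (X : ℝ) ^ 6 ≤ n := by exact_mod_cast hn
      have b1 : ‖x‖ ≤ (1 - u) * (1 - u) := by nlinarith
      have b2 : ‖x‖ ^ n ≤ (1 - u) ^ n * (1 - u) ^ n := by
        rw [← mul_pow]
        exact pow_le_pow_left₀ (norm_nonneg _) b1 n
      have b3 : (1 - u) ^ n ≤ Real.exp (-(n * u)) := by
        have c1 : 1 - u ≤ Real.exp (-u) := by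
          have := Real.add_one_le_exp (-u); linarith
        calc (1 - u) ^ n ≤ (Real.exp (-u)) ^ n :=
              pow_le_pow_left₀ (by linarith) c1 n
          _ = Real.exp (-(n * u)) := by
              rw [← Real.exp_nat_mul]; congr 1; ring
      have b4 := hcoef n
      have b5 := pow_le_fact_exp n l (v := u / 4) (by positivity)
      have b6 : (1 : ℝ) / (u / 4) = 8 * (X : ℝ) ^ 2 := by
        rw [hu]; field_simp; norm_num
      rw [b6] at b5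
      have b7 : (X : ℝ) ^ 4 / 4 ≤ n * u / 2 := by
        have : (X : ℝ) ^ 6 * u = (X : ℝ) ^ 4 / 2 := by
          rw [hu]; field_simp
        have c2 : (X : ℝ) ^ 6 * u ≤ n * u := mul_le_mul_of_nonneg_right hnR hu0.le
        linarith
      have hR0 : 0 ≤ 1 - u := by linarith
      have b8 : ‖PowerSeries.coeff n h‖ * ‖x‖ ^ n ≤
          Real.exp (κ * (X : ℝ) ^ 3) * Real.exp (-(n * u)) := by
        calc ‖PowerSeries.coeff n h‖ * ‖x‖ ^ n
            ≤ ‖PowerSeries.coeff n h‖ * ((1 - u) ^ n * (1 - u) ^ n) :=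
              mul_le_mul_of_nonneg_left b2 (norm_nonneg _)
          _ = (‖PowerSeries.coeff n h‖ * (1 - u) ^ n) * (1 - u) ^ n := by ring
          _ ≤ Real.exp (κ * (X : ℝ) ^ 3) * Real.exp (-(n * u)) :=
              mul_le_mul b4 b3 (by positivity) (Real.exp_pos _).le
      have b9 : Real.exp (n * (u / 4)) * (Real.exp (κ * (X : ℝ) ^ 3) * Real.exp (-(n * u))) ≤
          Real.exp (κ * (X : ℝ) ^ 3 - (X : ℝ) ^ 4 / 4) * q ^ n := by
        rw [hq, ← Real.exp_nat_mul, ← Real.exp_add, ← Real.exp_add, ← Real.exp_add]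
        apply Real.exp_le_exp.2
        linarith
      calc (n : ℝ) ^ l * ‖PowerSeries.coeff n h‖ * ‖x‖ ^ n
          = (n : ℝ) ^ l * (‖PowerSeries.coeff n h‖ * ‖x‖ ^ n) := by ring
        _ ≤ ((l.factorial : ℝ) * (8 * (X : ℝ) ^ 2) ^ l * Real.exp (n * (u / 4))) *
            (Real.exp (κ * (X : ℝ) ^ 3) * Real.exp (-(n * u))) :=
            mul_le_mul b5 b8 (by positivity) (by positivity)
        _ = (l.factorial : ℝ) * (8 * (X : ℝ) ^ 2) ^ l * (Real.exp (n * (u / 4)) *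
            (Real.exp (κ * (X : ℝ) ^ 3) * Real.exp (-(n * u)))) := by ring
        _ ≤ (l.factorial : ℝ) * (8 * (X : ℝ) ^ 2) ^ l *
            (Real.exp (κ * (X : ℝ) ^ 3 - (X : ℝ) ^ 4 / 4) * q ^ n) :=
            mul_le_mul_of_nonneg_left b9 (by positivity)
        _ = K * q ^ n := by rw [hK]; ring
  have hnorm : ‖ev (D^[l] h) x‖ ≤ K * (1 - q)⁻¹ := tsum_of_norm_bounded hg hterm
  have hgb : (1 - q)⁻¹ ≤ 1 + 8 * (X : ℝ) ^ 2 := by
    have c3 := geom_bound (t := u / 4) (by positivity)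
    have c4 : (1 : ℝ) / (u / 4) = 8 * (X : ℝ) ^ 2 := by
      rw [hu]; field_simp; norm_num
    rw [c4] at c3
    exact c3
  calc ‖ev (D^[l] h) x‖ ≤ K * (1 - q)⁻¹ := hnorm
    _ ≤ K * (1 + 8 * (X : ℝ) ^ 2) := mul_le_mul_of_nonneg_left hgb hK0
    _ ≤ 1 := hc X hX l hl

end Pool.Agent.H59.EG
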